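import Mathlib

/-!
# An almost Scheepers, weakly Scheepers space which is not weakly Scheepers in the sense of Kočinac

Let `Y` be a compact Hausdorff space with a function `a : Y → ω^ω` which maps each nonempty open
set onto `ω^ω`. For `k : ℕ` and `g : ω^ω` let `G(k,g)` be the set of all `y` such that `a(y)(n) = 0`
for `n < k` and `a(y)(n) > g(n)` for all but finitely many `n`. In the new topology the basic
neighbourhoods of a point `x` are `{x} ∪ (U ∩ G(k,g))` where `U` is an old neighbourhood of `x`.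
Every new open cover has a finite subfamily with dense union, so the space is almost Scheepers and
weakly Scheepers. The sets `{y : a(y)(n) ≤ m}`, `m : ℕ`, form a cover for every `n`, but the points
which are covered infinitely often by a given selection miss one of the nonempty open sets `G(0,g)`.
-/

set_option autoImplicit false

open Topology Filter

namespace Pool.Agent.Results.MP_23a291_gt.UrysohnExample

/-- `𝓤` is an open cover of `X`. -/
def IsOpenCover {X : Type} [TopologicalSpace X] (𝓤 : Set (Set X)) : Prop :=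
  (∀ U ∈ 𝓤, IsOpen U) ∧ ⋃₀ 𝓤 = Set.univ

/-- `𝓥` is a selection for the sequence `𝓤`: each `𝓥 n` is a finite subset of `𝓤 n`. -/
def IsSelection {X : Type} (𝓤 𝓥 : ℕ → Set (Set X)) : Prop :=
  ∀ n, (𝓥 n).Finite ∧ 𝓥 n ⊆ 𝓤 n

/-- `X` is almost Scheepers. -/
def AlmostScheepers (X : Type) [TopologicalSpace X] : Prop :=
  ∀ 𝓤 : ℕ → Set (Set X), (∀ n, IsOpenCover (𝓤 n)) → ∃ 𝓥, IsSelection 𝓤 𝓥 ∧
    ∀ F : Set X, F.Finite → {n | F ⊆ closure (⋃₀ 𝓥 n)}.Infinite

/-- `X` is weakly Scheepers. -/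
def WeaklyScheepers (X : Type) [TopologicalSpace X] : Prop :=
  ∀ 𝓤 : ℕ → Set (Set X), (∀ n, IsOpenCover (𝓤 n)) → ∃ 𝓥, IsSelection 𝓤 𝓥 ∧
    ∀ 𝓕 : Set (Set X), 𝓕.Finite → (∀ U ∈ 𝓕, IsOpen U ∧ U.Nonempty) →
      {n | ∀ U ∈ 𝓕, (U ∩ ⋃₀ 𝓥 n).Nonempty}.Infinite

/-- `X` is weakly Scheepers in the sense of Kočinac. -/
def WeaklyScheepersK (X : Type) [TopologicalSpace X] : Prop :=
  ∀ 𝓤 : ℕ → Set (Set X), (∀ n, IsOpenCover (𝓤 n)) → ∃ (Y : Set X) (𝓥 : ℕ → Set (Set X)),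
    Dense Y ∧ IsSelection 𝓤 𝓥 ∧ ∀ F : Set X, F.Finite → F ⊆ Y → {n | F ⊆ ⋃₀ 𝓥 n}.Infinite

/-! ### The new topology -/

section

variable {Y : Type} (a : Y → ℕ → ℕ)

/-- The set `G(k,g)`. -/
def G (k : ℕ) (g : ℕ → ℕ) : Set Y := {y | (∀ n < k, a y n = 0) ∧ ∀ᶠ n in atTop, g n < a y n}

theorem G_anti {k k' : ℕ} {g g' : ℕ → ℕ} (hk : k ≤ k') (hg : ∀ n, g n ≤ g' n) :
    G a k' g' ⊆ G a k g :=
  fun _ hy => ⟨fun n hn => hy.1 n (hn.trans_le hk), hy.2.mono fun n hn => (hg n).trans_lt hn⟩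

variable [TopologicalSpace Y]

/-- The new topology. -/
@[instance_reducible]
def newTop : TopologicalSpace Y where
  IsOpen W := ∀ x ∈ W, ∃ U : Set Y, IsOpen U ∧ x ∈ U ∧ ∃ k g, U ∩ G a k g ⊆ W
  isOpen_univ := fun x _ => ⟨Set.univ, isOpen_univ, trivial, 0, 0, Set.subset_univ _⟩
  isOpen_inter W V hW hV x hx := by
    obtain ⟨U, hU, hxU, k, g, h⟩ := hW x hx.1
    obtain ⟨U', hU', hxU', k', g', h'⟩ := hV x hx.2
    refine ⟨U ∩ U', hU.inter hU', ⟨hxU, hxU'⟩, max k k', fun n => max (g n) (g' n), ?_⟩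
    rintro y ⟨⟨h1, h2⟩, h3⟩
    exact ⟨h ⟨h1, G_anti a (le_max_left _ _) (fun n => le_max_left _ _) h3⟩,
      h' ⟨h2, G_anti a (le_max_right _ _) (fun n => le_max_right _ _) h3⟩⟩
  isOpen_sUnion S hS x hx := by
    obtain ⟨W, hW, hxW⟩ := hx
    obtain ⟨U, hU, hxU, k, g, h⟩ := hS W hW x hxW
    exact ⟨U, hU, hxU, k, g, h.trans (Set.subset_sUnion_of_mem hW)⟩

theorem newTop_isOpen_iff {W : Set Y} : IsOpen[newTop a] W ↔
    ∀ x ∈ W, ∃ U : Set Y, IsOpen U ∧ x ∈ U ∧ ∃ k g, U ∩ G a k g ⊆ W := Iff.rfl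

theorem newTop_of_isOpen {U : Set Y} (hU : IsOpen U) : IsOpen[newTop a] U :=
  fun _ hx => ⟨U, hU, hx, 0, 0, Set.inter_subset_left⟩

theorem newTop_of_G_subset {W : Set Y} {k : ℕ} {g : ℕ → ℕ} (h : G a k g ⊆ W) :
    IsOpen[newTop a] W :=
  fun _ _ => ⟨Set.univ, isOpen_univ, trivial, k, g, Set.inter_subset_right.trans h⟩

theorem newTop_t25 [h1 : CompactSpace Y] [h2 : T2Space Y] : @T25Space Y (newTop a) := by
  have h3 : T25Space Y := inferInstance
  exact @T25Space.of_injective_continuous Y Y (newTop a) ‹TopologicalSpace Y› h3 id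
    Function.injective_id (@Continuous.mk Y Y (newTop a) _ id fun U hU => newTop_of_isOpen a hU)

variable {a}

theorem G_meets (ha : ∀ U : Set Y, IsOpen U → U.Nonempty → ∀ f, ∃ y ∈ U, a y = f) {W : Set Y}
    (hW : IsOpen[newTop a] W) (hne : W.Nonempty) (k : ℕ) (g : ℕ → ℕ) : (W ∩ G a k g).Nonempty := by
  obtain ⟨x, hx⟩ := hne
  obtain ⟨U, hU, hxU, k', g', h⟩ := hW x hx
  let K : ℕ := max k k'
  let H : ℕ → ℕ := fun n => max (g n) (g' n)
  obtain ⟨y, hyU, hy⟩ := ha U hU ⟨x, hxU⟩ fun n => if n < K then 0 else H n + 1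
  have hyG : y ∈ G a K H := by
    refine ⟨fun n hn => ?_, ?_⟩
    · rw [hy]; exact if_pos hn
    · filter_upwards [eventually_ge_atTop K] with n hn
      rw [hy]
      simp only [if_neg (not_lt.2 hn)]
      exact Nat.lt_succ_self _
  exact ⟨y, h ⟨hyU, G_anti a (le_max_right _ _) (fun n => le_max_right _ _) hyG⟩,
    G_anti a (le_max_left _ _) (fun n => le_max_left _ _) hyG⟩

/-- Every new open cover has a finite subfamily whose union contains a set `G(k,g)`. -/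
theorem exists_finite [CompactSpace Y] (𝓤 : Set (Set Y)) (h𝓤 : @IsOpenCover Y (newTop a) 𝓤) :
    ∃ 𝓥 : Set (Set Y), (𝓥.Finite ∧ 𝓥 ⊆ 𝓤) ∧ ∃ k g, G a k g ⊆ ⋃₀ 𝓥 := by
  obtain ⟨hopen, hcov⟩ := h𝓤
  have h1 : ∀ x : Y, ∃ V ∈ 𝓤, x ∈ V := fun x => by
    have : x ∈ ⋃₀ 𝓤 := hcov ▸ Set.mem_univ x
    exact this
  choose V hV hxV using h1
  choose U hU hxU k g hG using fun x => hopen (V x) (hV x) x (hxV x)
  obtain ⟨t, _, ht⟩ := (isCompact_univ (X := Y)).elim_nhds_subcover U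
    fun x _ => (hU x).mem_nhds (hxU x)
  refine ⟨V '' t, ⟨t.finite_toSet.image V, ?_⟩, t.sup k, fun n => t.sup fun x => g x n, ?_⟩
  · rintro _ ⟨x, _, rfl⟩
    exact hV x
  · intro y hy
    obtain ⟨x, hx, hyx⟩ := Set.mem_iUnion₂.1 (ht (Set.mem_univ y))
    refine ⟨V x, ⟨x, hx, rfl⟩, hG x ⟨hyx, ?_⟩⟩
    exact G_anti a (Finset.le_sup (f := k) hx) (fun n => Finset.le_sup (f := fun x => g x n) hx) hy

theorem almostScheepers [CompactSpace Y]
    (ha : ∀ U : Set Y, IsOpen U → U.Nonempty → ∀ f, ∃ y ∈ U, a y = f) :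
    @AlmostScheepers Y (newTop a) := by
  intro 𝓤 h𝓤
  choose 𝓥 hV k g hG using fun n => exists_finite (𝓤 n) (h𝓤 n)
  refine ⟨𝓥, hV, fun F _ => ?_⟩
  have : {n | F ⊆ @closure Y (newTop a) (⋃₀ 𝓥 n)} = Set.univ := by
    refine Set.eq_univ_of_forall fun n x _ => ?_
    refine (@mem_closure_iff Y (newTop a) _ _).2 fun W hW hxW => ?_
    obtain ⟨y, hy, hyG⟩ := G_meets ha hW ⟨x, hxW⟩ (k n) (g n)
    exact ⟨y, hy, hG n hyG⟩
  rw [this]
  exact Set.infinite_univ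

theorem weaklyScheepers [CompactSpace Y]
    (ha : ∀ U : Set Y, IsOpen U → U.Nonempty → ∀ f, ∃ y ∈ U, a y = f) :
    @WeaklyScheepers Y (newTop a) := by
  intro 𝓤 h𝓤
  choose 𝓥 hV k g hG using fun n => exists_finite (𝓤 n) (h𝓤 n)
  refine ⟨𝓥, hV, fun 𝓕 _ h𝓕 => ?_⟩
  have : {n | ∀ U ∈ 𝓕, (U ∩ ⋃₀ 𝓥 n).Nonempty} = Set.univ := by
    refine Set.eq_univ_of_forall fun n W hW => ?_
    obtain ⟨y, hy, hyG⟩ := G_meets ha (h𝓕 W hW).1 (h𝓕 W hW).2 (k n) (g n)
    exact ⟨y, hy, hG n hyG⟩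
  rw [this]
  exact Set.infinite_univ

theorem not_weaklyScheepersK [Nonempty Y]
    (ha : ∀ U : Set Y, IsOpen U → U.Nonempty → ∀ f, ∃ y ∈ U, a y = f) :
    ¬ @WeaklyScheepersK Y (newTop a) := by
  intro h
  obtain ⟨D, 𝓥, hD, hV, hF⟩ := h (fun n => Set.range fun m => {y | a y n ≤ m}) fun n => by
    refine ⟨?_, Set.eq_univ_of_forall fun y => ⟨_, ⟨a y n, rfl⟩, le_refl (a y n)⟩⟩
    rintro _ ⟨m, rfl⟩
    refine newTop_of_G_subset a (k := n + 1) (g := 0) fun y hy => ?_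
    have h0 : a y n = 0 := hy.1 n (Nat.lt_succ_self n)
    show a y n ≤ m
    rw [h0]
    exact Nat.zero_le m
  have hb : ∀ n, ∃ m, ⋃₀ 𝓥 n ⊆ {y | a y n ≤ m} := by
    intro n
    obtain ⟨hfin, hsub⟩ := hV n
    have hch : ∀ U : Set Y, ∃ m, U ∈ 𝓥 n → U ⊆ {y | a y n ≤ m} := by
      intro U
      by_cases hU : U ∈ 𝓥 n
      · obtain ⟨m, rfl⟩ := hsub hU
        exact ⟨m, fun _ => subset_rfl⟩
      · exact ⟨0, fun h => absurd h hU⟩
    choose m hm using hch
    obtain ⟨N, hN⟩ := (hfin.image m).bddAbove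
    refine ⟨N, ?_⟩
    rintro y ⟨U, hU, hyU⟩
    exact le_trans (hm U hU hyU) (hN ⟨U, hU, rfl⟩)
  choose g hg using hb
  have hopen : IsOpen[newTop a] (G a 0 g) := newTop_of_G_subset a subset_rfl
  have hne : (G a 0 g).Nonempty := by
    have := G_meets ha (@isOpen_univ Y (newTop a)) Set.univ_nonempty 0 g
    rwa [Set.univ_inter] at this
  obtain ⟨y, hyG, hyD⟩ := @Dense.inter_open_nonempty Y (newTop a) D hD _ hopen hne
  have hinf := hF {y} (Set.finite_singleton y) (Set.singleton_subset_iff.2 hyD)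
  obtain ⟨N, hN⟩ := eventually_atTop.1 hyG.2
  refine hinf ((Set.finite_lt_nat N).subset fun n hn => ?_)
  by_contra hlt
  exact absurd (hg n (hn (Set.mem_singleton y))) (not_le.2 (hN n (not_lt.1 hlt)))

end

/-! ### The compact space -/

/-- A discrete copy of `ω^ω`. -/
inductive Code : Type
  | mk : (ℕ → ℕ) → Code

instance : TopologicalSpace Code := ⊥

instance : DiscreteTopology Code := ⟨rfl⟩

/-- The compact space. -/
abbrev Z : Type := ℕ → OnePoint Code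

open scoped Classical in
/-- The function `a`: the value of an eventually constant sequence. -/
noncomputable def aZ (z : Z) : ℕ → ℕ :=
  if h : ∃ f : ℕ → ℕ, ∀ᶠ n in atTop, z n = ((Code.mk f : Code) : OnePoint Code) then h.choose else 0

theorem aZ_eq {z : Z} {f : ℕ → ℕ}
    (h : ∀ᶠ n in atTop, z n = ((Code.mk f : Code) : OnePoint Code)) : aZ z = f := by
  have hex : ∃ f : ℕ → ℕ, ∀ᶠ n in atTop, z n = ((Code.mk f : Code) : OnePoint Code) := ⟨f, h⟩
  have h1 : aZ z = hex.choose := by rw [aZ, dif_pos hex]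
  obtain ⟨n, hn⟩ := (h.and hex.choose_spec).exists
  have h2 := OnePoint.coe_injective (hn.1.symm.trans hn.2)
  have h3 : f = hex.choose := by injection h2
  rw [h1, ← h3]

theorem aZ_onto (U : Set Z) (hU : IsOpen U) (hne : U.Nonempty) (f : ℕ → ℕ) :
    ∃ y ∈ U, aZ y = f := by
  obtain ⟨x, hx⟩ := hne
  obtain ⟨I, V, hV, hsub⟩ := isOpen_pi_iff.1 hU x hx
  refine ⟨fun n => if n ∈ I then x n else ((Code.mk f : Code) : OnePoint Code), hsub ?_, ?_⟩
  · intro n hn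
    have hn' : n ∈ I := hn
    simp only [if_pos hn']
    exact (hV n hn').2
  · refine aZ_eq ?_
    filter_upwards [eventually_gt_atTop (I.sup id)] with n hn
    refine if_neg fun h => ?_
    exact absurd (Finset.le_sup (f := id) h) (not_le.2 hn)

/-- There is a Urysohn space which is almost Scheepers and weakly Scheepers, but not weakly
Scheepers in the sense of Kočinac. -/
theorem result : ∃ (X : Type) (_ : TopologicalSpace X), T25Space X ∧ AlmostScheepers X ∧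
    WeaklyScheepers X ∧ ¬ WeaklyScheepersK X :=
  ⟨Z, newTop aZ, newTop_t25 aZ, almostScheepers aZ_onto, weaklyScheepers aZ_onto,
    not_weaklyScheepersK aZ_onto⟩

end Pool.Agent.Results.MP_23a291_gt.UrysohnExample
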